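import Pool.Agent.Lib.MP_377e48_co.Final

set_option autoImplicit false

/-!
Colouring tangent graphs of pairwise intersecting balls in dimensions one and two.
-/

namespace Pool.Agent.Results.MP_377e48_co.PlaneDiscs

/-- Let `d = 1` or `d = 2`.  If finitely many closed balls with distinct centres in `ℝ^d` (with
arbitrary radii) pairwise intersect and their tangent graph is stress-free, or if every subfamily
of `m ≥ 2` of the balls has at most `d m - d (d + 1) / 2` tangencies, then the tangent graph is
`(d + 1)`-colourable. -/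
theorem result :
    ∀ (d : ℕ), 1 ≤ d → d ≤ 2 →
      ∀ (n : ℕ) (c : Fin n → EuclideanSpace ℝ (Fin d)) (ρ : Fin n → ℝ),
        Function.Injective c →
        (∀ i, 0 < ρ i) →
        (∀ i j, dist (c i) (c j) ≤ ρ i + ρ j) →
        ((∀ w : Fin n → Fin n → ℝ,
            (∀ i j, w i j = w j i) →
            (∀ j, ∑ i ∈ Finset.univ.filter (fun i => dist (c i) (c j) = ρ i + ρ j),
                w i j • (c i - c j) = 0) →
            ∀ i j, dist (c i) (c j) = ρ i + ρ j → w i j = 0) ∨
          (∀ S : Finset (Fin n), 2 ≤ S.card →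
            ((S ×ˢ S).filter (fun p : Fin n × Fin n =>
              p.1 < p.2 ∧ dist (c p.1) (c p.2) = ρ p.1 + ρ p.2)).card + d * (d + 1) / 2 ≤
                d * S.card)) →
        (SimpleGraph.fromRel (fun i j : Fin n => dist (c i) (c j) = ρ i + ρ j)).Colorable
          (d + 1) := by
  intro d hd1 hd2 n c ρ hinj hpos hmeet hs
  interval_cases d
  · exact Pool.Agent.Lib.MP_377e48_co.line_colorable c ρ hpos hmeet
  · have hD : Pool.Agent.Lib.MP_377e48_co.Discs c ρ := ⟨hinj, hpos, hmeet⟩
    rcases hs with hs | hs
    · exact Pool.Agent.Lib.MP_377e48_co.plane_colorable c ρ hD hs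
    · by_contra hcon
      obtain ⟨S, h4, hS⟩ := Pool.Agent.Lib.MP_377e48_co.dense_pairs c ρ hD hcon
      have := hs S (by omega)
      omega

end Pool.Agent.Results.MP_377e48_co.PlaneDiscs
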